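import Pool.Agent.Lib_helper52.EPS.Defs

set_option autoImplicit false

namespace Pool.Agent.EPS

open MeasureTheory Set Filter Topology

variable {d : ℕ}

/-- density of a convolution with an arbitrary measure -/
theorem f6_dens (μ γ : Measure (EuclideanSpace ℝ (Fin d))) [IsProbabilityMeasure μ]
    [IsProbabilityMeasure γ] (hγ : γ ≪ volume) :
    ∀ᵐ y, (μ.conv γ).rnDeriv volume y = ∫⁻ a, γ.rnDeriv volume (y - a) ∂μ := by
  have mg : Measurable (γ.rnDeriv volume) := Measure.measurable_rnDeriv _ _
  have mm : Measurable (fun y : EuclideanSpace ℝ (Fin d) =>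
      ∫⁻ a, γ.rnDeriv volume (y - a) ∂μ) :=
    (mg.comp (measurable_fst.sub measurable_snd)).lintegral_prod_right'
  have key : μ.conv γ = volume.withDensity (fun y : EuclideanSpace ℝ (Fin d) =>
      ∫⁻ a, γ.rnDeriv volume (y - a) ∂μ) := by
    refine Measure.ext_of_lintegral _ fun f hf => ?_
    rw [Measure.lintegral_conv hf, lintegral_withDensity_eq_lintegral_mul _ mm hf]
    have e1 : ∀ a, ∫⁻ y, f (a + y) ∂γ =
        ∫⁻ y, γ.rnDeriv volume (y - a) * f y := by
      intro a
      have h1 : ∫⁻ y, f (a + y) ∂γ = ∫⁻ y, γ.rnDeriv volume y * f (a + y) := by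
        have h0 : Measurable fun y => f (a + y) := hf.comp (measurable_const_add a)
        have h := lintegral_withDensity_eq_lintegral_mul volume mg h0
        rw [Measure.withDensity_rnDeriv_eq γ volume hγ] at h
        exact h
      rw [h1, ← lintegral_sub_right_eq_self (fun y => γ.rnDeriv volume y * f (a + y)) a]
      refine lintegral_congr fun y => ?_
      rw [show a + (y - a) = y by abel]
    simp only [e1]
    rw [lintegral_lintegral_swap]
    · refine lintegral_congr fun y => ?_
      rw [lintegral_mul_const]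
      · rfl
      · exact mg.comp (measurable_const.sub measurable_id)
    · exact ((mg.comp (measurable_snd.sub measurable_fst)).mul
        (hf.comp measurable_snd)).aemeasurable
  rw [key]
  exact Measure.rnDeriv_withDensity _ mm

/-- real version -/
theorem f6_real (μ γ : Measure (EuclideanSpace ℝ (Fin d))) [IsProbabilityMeasure μ]
    [IsProbabilityMeasure γ] (hγ : γ ≪ volume) :
    ∀ᵐ y, Integrable (fun a => (γ.rnDeriv volume (y - a)).toReal) μ ∧
      ((μ.conv γ).rnDeriv volume y).toReal = ∫ a, (γ.rnDeriv volume (y - a)).toReal ∂μ := by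
  have mg : Measurable (γ.rnDeriv volume) := Measure.measurable_rnDeriv _ _
  filter_upwards [f6_dens μ γ hγ, Measure.rnDeriv_lt_top (μ.conv γ) volume] with y h1 h2
  have mm : Measurable (fun a => γ.rnDeriv volume (y - a)) :=
    mg.comp (measurable_const.sub measurable_id)
  rw [h1] at h2
  have h3 : ∀ᵐ a ∂μ, γ.rnDeriv volume (y - a) < ⊤ := ae_lt_top mm h2.ne
  refine ⟨integrable_toReal_of_lintegral_ne_top mm.aemeasurable h2.ne, ?_⟩
  rw [h1, integral_toReal mm.aemeasurable h3]

theorem f6_fub (μ : Measure (EuclideanSpace ℝ (Fin d))) [IsProbabilityMeasure μ]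
    {F : EuclideanSpace ℝ (Fin d) → ENNReal} (hF : Measurable F) :
    ∫⁻ y, ∫⁻ a, F (y - a) ∂μ = ∫⁻ y, F y := by
  rw [lintegral_lintegral_swap]
  · simp only [lintegral_sub_right_eq_self, lintegral_const, measure_univ, mul_one]
  · exact (hF.comp (measurable_fst.sub measurable_snd)).aemeasurable

/-- the negative part of `negMulLog` -/
noncomputable def f6psi (t : ℝ) : ℝ := max 0 (-(Real.negMulLog t))

/-- the positive part of `negMulLog` -/
noncomputable def f6th (t : ℝ) : ℝ := max 0 (Real.negMulLog t)

theorem f6_split (t : ℝ) : Real.negMulLog t = f6th t - f6psi t := by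
  unfold f6th f6psi
  rcases le_total 0 (Real.negMulLog t) with h | h
  · rw [max_eq_right h, max_eq_left (neg_nonpos.2 h), sub_zero]
  · rw [max_eq_left h, max_eq_right (neg_nonneg.2 h)]; ring

theorem f6_psi_conv : ConvexOn ℝ (Ici 0) f6psi := by
  have h1 : ConvexOn ℝ (Ici (0 : ℝ)) (fun _ : ℝ => (0 : ℝ)) := convexOn_const 0 (convex_Ici 0)
  have h2 : ConvexOn ℝ (Ici (0 : ℝ)) (-Real.negMulLog) := Real.concaveOn_negMulLog.neg
  exact h1.sup h2

theorem f6_psi_cont : Continuous f6psi :=
  continuous_const.max Real.continuous_negMulLog.neg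

theorem f6_th_cont : Continuous f6th := continuous_const.max Real.continuous_negMulLog

theorem f6_psi_nn (t : ℝ) : 0 ≤ f6psi t := le_max_left _ _

theorem f6_th_nn (t : ℝ) : 0 ≤ f6th t := le_max_left _ _

theorem f6_th_le {t : ℝ} (ht : 0 ≤ t) : f6th t ≤ 1 := by
  refine max_le zero_le_one ((Real.negMulLog_le_one_sub_self ht).trans ?_)
  linarith

/-- integrability of the negative part passes to the convolution -/
theorem f6_psi_int (μ γ : Measure (EuclideanSpace ℝ (Fin d))) [IsProbabilityMeasure μ]
    [IsProbabilityMeasure γ] (hγ : γ ≪ volume)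
    (h : Integrable (fun y => f6psi (γ.rnDeriv volume y).toReal)) :
    (∀ᵐ y, Integrable (fun a => f6psi (γ.rnDeriv volume (y - a)).toReal) μ) ∧
    Integrable (fun y => f6psi ((μ.conv γ).rnDeriv volume y).toReal) := by
  have mg : Measurable (γ.rnDeriv volume) := Measure.measurable_rnDeriv _ _
  have mF : Measurable (fun y => ENNReal.ofReal (f6psi (γ.rnDeriv volume y).toReal)) :=
    (f6_psi_cont.measurable.comp mg.ennreal_toReal).ennreal_ofReal
  have hfub := f6_fub μ mF
  have hfin : ∫⁻ y, ENNReal.ofReal (f6psi (γ.rnDeriv volume y).toReal) < ⊤ :=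
    h.lintegral_lt_top
  have mm : Measurable (fun y : EuclideanSpace ℝ (Fin d) =>
      ∫⁻ a, ENNReal.ofReal (f6psi (γ.rnDeriv volume (y - a)).toReal) ∂μ) :=
    (mF.comp (measurable_fst.sub measurable_snd)).lintegral_prod_right'
  have hae : ∀ᵐ y, ∫⁻ a, ENNReal.ofReal (f6psi (γ.rnDeriv volume (y - a)).toReal) ∂μ < ⊤ :=
    ae_lt_top mm (by rw [hfub]; exact hfin.ne)
  have hI : ∀ᵐ y, Integrable (fun a => f6psi (γ.rnDeriv volume (y - a)).toReal) μ := by
    filter_upwards [hae] with y hy
    have m1 : Measurable (fun a => f6psi (γ.rnDeriv volume (y - a)).toReal) :=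
      f6_psi_cont.measurable.comp
        (mg.ennreal_toReal.comp (measurable_const.sub measurable_id))
    refine ⟨m1.aestronglyMeasurable, ?_⟩
    rw [hasFiniteIntegral_iff_ofReal (Eventually.of_forall fun a => f6_psi_nn _)]
    exact hy
  refine ⟨hI, ?_⟩
  have mP : Measurable ((μ.conv γ).rnDeriv volume) := Measure.measurable_rnDeriv _ _
  refine ⟨(f6_psi_cont.measurable.comp mP.ennreal_toReal).aestronglyMeasurable, ?_⟩
  rw [hasFiniteIntegral_iff_ofReal (Eventually.of_forall fun a => f6_psi_nn _)]
  refine lt_of_le_of_lt ?_ hfin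
  rw [← hfub]
  refine lintegral_mono_ae ?_
  filter_upwards [hI, f6_real μ γ hγ] with y h1 h2
  rw [h2.2, ← ofReal_integral_eq_lintegral_ofReal h1
    (Eventually.of_forall fun a => f6_psi_nn _)]
  refine ENNReal.ofReal_le_ofReal ?_
  exact f6_psi_conv.map_integral_le f6_psi_cont.continuousOn isClosed_Ici
    (Eventually.of_forall fun a => ENNReal.toReal_nonneg) h2.1 h1

/-- finite entropy of an intermediate sum -/
theorem mid_fin (α β γ : Measure (EuclideanSpace ℝ (Fin d))) [IsProbabilityMeasure α]
    [IsProbabilityMeasure β] [IsProbabilityMeasure γ] (hγ : FinE γ)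
    (h : FinE (α.conv (β.conv γ))) : FinE (β.conv γ) := by
  have mg : Measurable (γ.rnDeriv volume) := Measure.measurable_rnDeriv _ _
  have mP : Measurable ((β.conv γ).rnDeriv volume) := Measure.measurable_rnDeriv _ _
  have mU : Measurable ((α.conv (β.conv γ)).rnDeriv volume) := Measure.measurable_rnDeriv _ _
  have hac : β.conv γ ≪ volume := Measure.conv_absolutelyContinuous hγ.1
  have i0 : Integrable (fun y => f6psi (γ.rnDeriv volume y).toReal) := by
    refine hγ.2.norm.mono
      (f6_psi_cont.measurable.comp mg.ennreal_toReal).aestronglyMeasurable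
      (Eventually.of_forall fun y => ?_)
    rw [Real.norm_eq_abs, abs_of_nonneg (f6_psi_nn _), norm_norm, Real.norm_eq_abs]
    exact max_le (abs_nonneg _) (neg_le_abs _)
  have i1 := (f6_psi_int β γ hγ.1 i0).2
  have i2 := (f6_psi_int α (β.conv γ) hac i1).1
  have mF : Measurable (fun y => ENNReal.ofReal (f6th ((β.conv γ).rnDeriv volume y).toReal)) :=
    (f6_th_cont.measurable.comp mP.ennreal_toReal).ennreal_ofReal
  have mF' : Measurable (fun y => ENNReal.ofReal (f6psi ((β.conv γ).rnDeriv volume y).toReal)) :=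
    (f6_psi_cont.measurable.comp mP.ennreal_toReal).ennreal_ofReal
  have hfub := f6_fub α mF
  have hfub' := f6_fub α mF'
  have i3 : Integrable (fun y => f6th ((β.conv γ).rnDeriv volume y).toReal) := by
    refine ⟨(f6_th_cont.measurable.comp mP.ennreal_toReal).aestronglyMeasurable, ?_⟩
    rw [hasFiniteIntegral_iff_ofReal (Eventually.of_forall fun a => f6_th_nn _), ← hfub]
    have hle : ∫⁻ y, ∫⁻ a, ENNReal.ofReal (f6th ((β.conv γ).rnDeriv volume (y - a)).toReal) ∂α ≤
        ∫⁻ y, (ENNReal.ofReal
          |Real.negMulLog ((α.conv (β.conv γ)).rnDeriv volume y).toReal| +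
          ∫⁻ a, ENNReal.ofReal (f6psi ((β.conv γ).rnDeriv volume (y - a)).toReal) ∂α) := by
      refine lintegral_mono_ae ?_
      filter_upwards [i2, f6_real α (β.conv γ) hac] with y h1 h2
      have m1 : Measurable (fun a => f6th ((β.conv γ).rnDeriv volume (y - a)).toReal) :=
        f6_th_cont.measurable.comp
          (mP.ennreal_toReal.comp (measurable_const.sub measurable_id))
      have h3 : Integrable (fun a => f6th ((β.conv γ).rnDeriv volume (y - a)).toReal) α := by
        refine Integrable.of_bound m1.aestronglyMeasurable 1 (Eventually.of_forall fun a => ?_)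
        rw [Real.norm_eq_abs, abs_of_nonneg (f6_th_nn _)]
        exact f6_th_le ENNReal.toReal_nonneg
      rw [← ofReal_integral_eq_lintegral_ofReal h1 (Eventually.of_forall fun a => f6_psi_nn _),
        ← ofReal_integral_eq_lintegral_ofReal h3 (Eventually.of_forall fun a => f6_th_nn _),
        ← ENNReal.ofReal_add (abs_nonneg _) (integral_nonneg fun a => f6_psi_nn _)]
      refine ENNReal.ofReal_le_ofReal ?_
      have h4 : Integrable
          (fun a => Real.negMulLog ((β.conv γ).rnDeriv volume (y - a)).toReal) α :=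
        (h3.sub h1).congr (Eventually.of_forall fun a => (f6_split _).symm)
      have h5 := Real.concaveOn_negMulLog.le_map_integral Real.continuous_negMulLog.continuousOn
        isClosed_Ici (Eventually.of_forall fun a => ENNReal.toReal_nonneg) h2.1 h4
      have h6 : ∫ a, Real.negMulLog ((β.conv γ).rnDeriv volume (y - a)).toReal ∂α =
          (∫ a, f6th ((β.conv γ).rnDeriv volume (y - a)).toReal ∂α) -
          ∫ a, f6psi ((β.conv γ).rnDeriv volume (y - a)).toReal ∂α := by
        rw [← integral_sub h3 h1]
        exact integral_congr_ae (Eventually.of_forall fun a => f6_split _)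
      rw [h6, ← h2.2] at h5
      have h7 := le_abs_self
        (Real.negMulLog ((α.conv (β.conv γ)).rnDeriv volume y).toReal)
      linarith
    refine lt_of_le_of_lt hle ?_
    rw [lintegral_add_left, hfub']
    · refine ENNReal.add_lt_top.2 ⟨?_, i1.lintegral_lt_top⟩
      exact h.2.abs.lintegral_lt_top
    · exact ((Real.continuous_negMulLog.measurable.comp mU.ennreal_toReal).abs).ennreal_ofReal
  refine ⟨hac, (i3.sub i1).congr (Eventually.of_forall fun y => (f6_split _).symm)⟩

end Pool.Agent.EPS
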