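import Pool.Agent.Lib_helper52.EPS.Defs

set_option autoImplicit false

namespace Pool.Agent.EPS

open MeasureTheory Set Filter Topology

variable {d : ℕ}

/-- the density of an absolutely continuous probability measure -/
theorem dens_FinD (α : Measure (EuclideanSpace ℝ (Fin d))) [IsProbabilityMeasure α]
    (h : FinE α) : FinD (fun x => (α.rnDeriv volume x).toReal) where
  meas := (Measure.measurable_rnDeriv _ _).ennreal_toReal
  nn := fun _ => ENNReal.toReal_nonneg
  int := Measure.integrable_toReal_rnDeriv
  one := by
    rw [Measure.integral_toReal_rnDeriv h.1]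
    simp
  ent := h.2

/-- the density of the convolution -/
theorem dens_conv (α β : Measure (EuclideanSpace ℝ (Fin d))) [IsProbabilityMeasure α]
    [IsProbabilityMeasure β] (hα : α ≪ volume) (hβ : β ≪ volume) :
    ∀ᵐ t, ((α.conv β).rnDeriv volume t).toReal =
      cv (fun x => (α.rnDeriv volume x).toReal) (fun x => (β.rnDeriv volume x).toReal) t := by
  have h1 := rnDeriv_conv (μ := (volume : Measure (EuclideanSpace ℝ (Fin d)))) hα hβ
  filter_upwards [h1] with t ht
  rw [ht]
  have ma : Measurable (α.rnDeriv volume) := Measure.measurable_rnDeriv _ _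
  have mb : Measurable (β.rnDeriv volume) := Measure.measurable_rnDeriv _ _
  have fa : ∀ᵐ x, α.rnDeriv volume x < ⊤ := Measure.rnDeriv_lt_top α volume
  have fb : ∀ᵐ x, β.rnDeriv volume (t - x) < ⊤ :=
    (Measure.measurePreserving_sub_left volume t).quasiMeasurePreserving.ae
      (Measure.rnDeriv_lt_top β volume)
  have h2 : ∫ x, (α.rnDeriv volume x * β.rnDeriv volume (t - x)).toReal =
      (∫⁻ x, α.rnDeriv volume x * β.rnDeriv volume (t - x)).toReal := by
    refine integral_toReal ?_ ?_
    · exact (ma.mul (mb.comp (measurable_const.sub measurable_id))).aemeasurable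
    · filter_upwards [fa, fb] with x h3 h4
      exact ENNReal.mul_lt_top h3 h4
  have h3 : (lconvolution (α.rnDeriv volume) (β.rnDeriv volume) volume) t =
      ∫⁻ x, α.rnDeriv volume x * β.rnDeriv volume (t - x) := by
    rw [lconvolution_def]
    refine lintegral_congr fun x => ?_
    rw [show -x + t = t - x by abel]
  rw [h3, ← h2]
  unfold cv
  refine integral_congr_ae (Eventually.of_forall fun x => ?_)
  exact ENNReal.toReal_mul

end Pool.Agent.EPS
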