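import Pool.Agent.Lib_helper52.EPS.Defs
import Pool.Agent.Lib_helper73.EPS.C0
import Pool.Agent.Lib_helper83.EPS.C1
import Pool.Agent.Lib_helper24.EPS.C2
import Pool.Agent.Lib_helper73.EPS.C3
set_option autoImplicit false

namespace Pool.Agent.EPS

open MeasureTheory Set Filter Topology

variable {G : Type*} [MeasureSpace G] [TopologicalSpace G] [AddCommGroup G]
  [IsTopologicalAddGroup G] [BorelSpace G] [SecondCountableTopology G] [LocallyCompactSpace G]
  [T2Space G] [(volume : Measure G).IsAddHaarMeasure]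
variable {H : Type*} [MeasureSpace H] [TopologicalSpace H] [AddCommGroup H]
  [IsTopologicalAddGroup H] [BorelSpace H] [SecondCountableTopology H] [LocallyCompactSpace H]
  [T2Space H] [(volume : Measure H).IsAddHaarMeasure]

theorem c4_conv {f g : G → ℝ} (hf : Integrable f) (hg : Integrable g) :
    Integrable (fun t => ∫ x, f x * g (t - x)) ∧
      ∫ t, (∫ x, f x * g (t - x)) = (∫ x, f x) * ∫ x, g x := by
  have h1 := hf.integrable_convolution (ContinuousLinearMap.mul ℝ ℝ) hg
  have h2 := integral_convolution (ContinuousLinearMap.mul ℝ ℝ) hf hg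
  exact ⟨h1, h2⟩

theorem c4_three {f g h : G → ℝ} (hf : Integrable f) (hg : Integrable g) (hh : Integrable h)
    (p q r : ℝ) : Integrable (fun x => p * f x + q * g x + r * h x) ∧
      p * (∫ x, f x) + q * (∫ x, g x) + r * (∫ x, h x) =
        ∫ x, (p * f x + q * g x + r * h x) := by
  have h1 : Integrable (fun x => p * f x + q * g x) := (hf.const_mul p).add (hg.const_mul q)
  have h2 : Integrable (fun x => p * f x + q * g x + r * h x) := h1.add (hh.const_mul r)
  refine ⟨h2, ?_⟩
  rw [integral_add h1 (hh.const_mul r), integral_add (hf.const_mul p) (hg.const_mul q),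
    integral_const_mul, integral_const_mul, integral_const_mul]

theorem c4_bdd {f g : G → ℝ} (hf : Bdc f) (hg : Integrable g) :
    Integrable (fun x => f x * g x) := by
  obtain ⟨M, hM⟩ := hf.bd
  refine hg.bdd_mul (c := M) hf.meas.aestronglyMeasurable (Eventually.of_forall fun x => ?_)
  rw [Real.norm_eq_abs, abs_of_nonneg (hf.nn x)]
  exact hM x

theorem c4_refl {f : G → ℝ} (hf : Bdc f) (t : G) : Bdc (fun x => f (t - x)) := by
  obtain ⟨M, hM⟩ := hf.bd
  obtain ⟨K, hK, hK'⟩ := hf.supp
  refine ⟨hf.meas.comp (measurable_const.sub measurable_id), fun x => hf.nn _, ⟨M, fun x => hM _⟩,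
    (fun x => t - x) '' K, hK.image (continuous_const.sub continuous_id), fun x hx => ?_⟩
  refine hK' _ fun h => hx ⟨t - x, h, ?_⟩
  simp

/-- the conditional part of the tensorisation -/
theorem cond_part {u v : G × H → ℝ} (hu : Bdc u) (hv : Bdc v) (n : ℝ) (hH : EP H n) (l : ℝ)
    (h0 : 0 < l) (h1 : l < 1) :
    l * (∫ p, v p) * (∫ x, KK (fun y => u (x, y))) +
      (1 - l) * (∫ p, u p) * (∫ x, KK (fun y => v (x, y))) +
      n / 2 * Real.binEntropy l * ((∫ p, u p) * ∫ p, v p) ≤
      ∫ t, KK (fun w => cv u v (t, w)) := by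
  set a : G → ℝ := fun x => ∫ y, u (x, y) with ha
  set b : G → ℝ := fun x => ∫ y, v (x, y) with hb
  set Ku : G → ℝ := fun x => KK (fun y => u (x, y)) with hKu
  set Kv : G → ℝ := fun x => KK (fun y => v (x, y)) with hKv
  have ba : Bdc a := bdc_marg hu
  have bb : Bdc b := bdc_marg hv
  have iKu : Integrable Ku := (chain hu).1
  have iKv : Integrable Kv := (chain hv).1
  have ia := bdc_int ba
  have ib := bdc_int bb
  have c1 := c4_conv iKu ib
  have c2 := c4_conv ia iKv
  have c3 := c4_conv ia ib
  have key : ∀ t, l * (∫ x, Ku x * b (t - x)) + (1 - l) * (∫ x, a x * Kv (t - x)) +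
      n / 2 * Real.binEntropy l * (∫ x, a x * b (t - x)) ≤ KK (fun w => cv u v (t, w)) := by
    intro t
    have hU := bdc_family hu hv t
    have e1 : (fun w => cv u v (t, w)) =
        fun w => ∫ x, (fun p : G × H => cv (fun y => u (p.1, y)) (fun y => v (t - p.1, y)) p.2)
          (x, w) := by
      funext w
      exact cv_slice hu hv t w
    rw [e1]
    refine le_trans ?_ (jensen hU)
    have i1 : Integrable (fun x => Ku x * b (t - x)) := by
      have h := c4_bdd (c4_refl bb t) iKu
      exact h.congr (Eventually.of_forall fun x => mul_comm _ _)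
    have i2 : Integrable (fun x => a x * Kv (t - x)) := c4_bdd ba (iKv.comp_sub_left t)
    have i3 : Integrable (fun x => a x * b (t - x)) := c4_bdd ba (ib.comp_sub_left t)
    have e2 := c4_three i1 i2 i3 l (1 - l) (n / 2 * Real.binEntropy l)
    rw [e2.2]
    refine integral_mono e2.1 (chain hU).1 fun x => ?_
    have h := hH (fun y => u (x, y)) (fun y => v (t - x, y)) (bdc_slice hu x)
      (bdc_slice hv (t - x)) l h0 h1
    have e3 : l * (Ku x * b (t - x)) + (1 - l) * (a x * Kv (t - x)) +
        n / 2 * Real.binEntropy l * (a x * b (t - x)) =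
        l * (∫ y, v (t - x, y)) * KK (fun y => u (x, y)) +
        (1 - l) * (∫ y, u (x, y)) * KK (fun y => v (t - x, y)) +
        n / 2 * Real.binEntropy l * ((∫ y, u (x, y)) * ∫ y, v (t - x, y)) := by
      simp only [ha, hb, hKu, hKv]
      ring
    show l * (Ku x * b (t - x)) + (1 - l) * (a x * Kv (t - x)) +
        n / 2 * Real.binEntropy l * (a x * b (t - x)) ≤ _
    rw [e3]
    exact h
  have e4 := c4_three c1.1 c2.1 c3.1 l (1 - l) (n / 2 * Real.binEntropy l)
  have e0 : l * (∫ p, v p) * (∫ x, Ku x) + (1 - l) * (∫ p, u p) * (∫ x, Kv x) +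
      n / 2 * Real.binEntropy l * ((∫ p, u p) * ∫ p, v p) =
      ∫ t, (l * (∫ x, Ku x * b (t - x)) + (1 - l) * (∫ x, a x * Kv (t - x)) +
      n / 2 * Real.binEntropy l * (∫ x, a x * b (t - x))) := by
    rw [← e4.2, c1.2, c2.2, c3.2, ← marg_mass hu, ← marg_mass hv]
    ring
  rw [e0]
  exact integral_mono e4.1 (chain (bdc_cv hu hv)).1 key

end Pool.Agent.EPS
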